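import Pool.Agent.Helper64.IG.Goals

set_option autoImplicit false

universe u v

namespace Pool.Agent.Helper64.IG.PkSG

open List

/-- the value of a form on a list -/
noncomputable def FF {K : Type u} [Field K] {I : Type v} {p : ℕ} (ω : (Fin p → I) → K)
    (l : List I) : K :=
  if h : l.length = p then ω (fun j => l.get (Fin.cast h.symm j)) else 0

lemma ft_eq {K : Type u} [Field K] {I : Type v} {p : ℕ} (ω : (Fin p → I) → K) (L : List I)
    (b : List Bool) (h : b.length = L.length) : ft ω L b = FF ω (sel L b) := by
  unfold ft FF
  rw [if_pos h]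

/-- the sign -/
noncomputable def sgq (K : Type u) [Field K] {m : ℕ} : List (Fin m) → K
  | [] => 1
  | i :: r => (-1) ^ (r.countP fun j => decide (j < i)) * sgq K r

lemma sgq_mul_self (K : Type u) [Field K] {m : ℕ} (r : List (Fin m)) : sgq K r * sgq K r = 1 := by
  induction r with
  | nil => simp [sgq]
  | cons i r ih =>
    simp only [sgq]
    calc (-1) ^ (r.countP fun j => decide (j < i)) * sgq K r *
          ((-1) ^ (r.countP fun j => decide (j < i)) * sgq K r)
        = ((-1) ^ (r.countP fun j => decide (j < i)) * (-1) ^ (r.countP fun j => decide (j < i))) *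
          (sgq K r * sgq K r) := by ring
      _ = 1 := by
          rw [ih, ← mul_pow]
          simp

lemma sel_map {α β : Type*} (f : α → β) (c : α → Bool) (l : List α) :
    sel (l.map f) (l.map c) = (l.filter c).map f := by
  induction l with
  | nil => simp [sel]
  | cons a l ih =>
    cases h : c a
    · simp [sel, h, ih]
    · simp [sel, h, ih]

lemma sel_map' {α : Type*} (c : α → Bool) (l : List α) :
    sel l (l.map c) = l.filter c := by
  have := sel_map id c l
  simpa using this

lemma sgnl_eq (K : Type u) [Field K] {m : ℕ} (c : Fin m → Bool) (l : List (Fin m)) :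
    (sgnl l (l.map c) : K) = sgq K (l.filter c) := by
  induction l with
  | nil => simp [sgnl, sgq]
  | cons a l ih =>
    cases h : c a
    · simp only [List.map_cons, h, sgnl, ih, List.filter_cons]
      simp
    · simp only [List.map_cons, h, sgnl, ih, List.filter_cons]
      simp only [if_true, sgq, sel_map']

section
variable {K : Type u} [Field K] {I : Type v} {p : ℕ} {ω : (Fin p → I) → K}

lemma FF_swap (hω : ∀ (a : Fin p → I) (π : Equiv.Perm (Fin p)),
      ω (a ∘ π) = ((Equiv.Perm.sign π : ℤ) : K) * ω a) (l1 l2 : List I) (a b : I) :
    FF ω (l1 ++ a :: b :: l2) = - FF ω (l1 ++ b :: a :: l2) := by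
  unfold FF
  by_cases h : (l1 ++ a :: b :: l2).length = p
  · have h' : (l1 ++ b :: a :: l2).length = p := by
      rw [← h]; simp
    rw [dif_pos h, dif_pos h']
    have hk : l1.length < p := by
      rw [← h]; simp
    have hk1 : l1.length + 1 < p := by
      rw [← h]; simp
    have hne : (⟨l1.length, hk⟩ : Fin p) ≠ ⟨l1.length + 1, hk1⟩ := by
      intro h0
      have := congrArg Fin.val h0
      simp at this
    have key := hω (fun j => (l1 ++ b :: a :: l2).get (Fin.cast h'.symm j))
      (Equiv.swap ⟨l1.length, hk⟩ ⟨l1.length + 1, hk1⟩)
    rw [Equiv.Perm.sign_swap hne] at key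
    have e : (fun j : Fin p => (l1 ++ a :: b :: l2).get (Fin.cast h.symm j)) =
        (fun j => (l1 ++ b :: a :: l2).get (Fin.cast h'.symm j)) ∘
          (Equiv.swap ⟨l1.length, hk⟩ ⟨l1.length + 1, hk1⟩) := by
      funext j
      obtain ⟨j, hj⟩ := j
      simp only [Function.comp_apply, List.get_eq_getElem, Fin.val_cast, Equiv.swap_apply_def,
        Fin.mk.injEq]
      by_cases h1 : j = l1.length
      · subst h1
        simp
      · by_cases h2 : j = l1.length + 1
        · subst h2
          simp
        · simp only [h1, h2, if_false]
          rcases lt_or_ge j l1.length with h3 | h3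
          · rw [List.getElem_append_left h3, List.getElem_append_left h3]
          · rw [List.getElem_append_right h3, List.getElem_append_right h3]
            have h4 : ∃ t, j - l1.length = t + 2 := ⟨j - l1.length - 2, by omega⟩
            obtain ⟨t, ht⟩ := h4
            simp only [ht, List.getElem_cons_succ]
    rw [e, key]
    simp
  · have h' : ¬ (l1 ++ b :: a :: l2).length = p := by
      intro h0; apply h; rw [← h0]; simp
    rw [dif_neg h, dif_neg h', neg_zero]

lemma FF_insert (hω : ∀ (a : Fin p → I) (π : Equiv.Perm (Fin p)),
      ω (a ∘ π) = ((Equiv.Perm.sign π : ℤ) : K) * ω a) {m : ℕ} (L : Fin m → I) (i : Fin m)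
    (s : List (Fin m)) (hs : s.Pairwise (· ≤ ·)) (hi : i ∉ s) (pre : List I) :
    FF ω (pre ++ (i :: s).map L) = (-1) ^ (s.countP fun j => decide (j < i)) *
      FF ω (pre ++ (s.orderedInsert (· ≤ ·) i).map L) := by
  induction s generalizing pre with
  | nil => simp
  | cons a s ih =>
    rw [List.pairwise_cons] at hs
    rw [List.mem_cons, not_or] at hi
    by_cases hle : i ≤ a
    · rw [List.orderedInsert_cons_of_le (· ≤ ·) s hle]
      have hc : (a :: s).countP (fun j => decide (j < i)) = 0 := by
        rw [List.countP_eq_zero]
        intro x hx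
        simp only [decide_eq_true_eq, not_lt]
        rcases List.mem_cons.mp hx with rfl | hx
        · exact hle
        · exact hle.trans (hs.1 x hx)
      rw [hc]
      simp
    · have hlt : a < i := not_le.mp hle
      rw [List.orderedInsert_cons, if_neg hle, List.countP_cons, if_pos (by simpa using hlt), pow_succ]
      have h1 := ih hs.2 hi.2 (pre ++ [L a])
      simp only [List.map_cons, List.append_assoc, List.singleton_append] at h1
      simp only [List.map_cons]
      rw [FF_swap hω, h1]
      ring

lemma FF_sort (hω : ∀ (a : Fin p → I) (π : Equiv.Perm (Fin p)),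
      ω (a ∘ π) = ((Equiv.Perm.sign π : ℤ) : K) * ω a) {m : ℕ} (L : Fin m → I)
    (r : List (Fin m)) (hr : r.Nodup) (pre : List I) :
    FF ω (pre ++ r.map L) = sgq K r * FF ω (pre ++ (r.insertionSort (· ≤ ·)).map L) := by
  induction r generalizing pre with
  | nil => simp [sgq]
  | cons i r ih =>
    rw [List.nodup_cons] at hr
    have h1 := ih hr.2 (pre ++ [L i])
    simp only [List.append_assoc, List.singleton_append] at h1
    have hperm : (r.insertionSort (· ≤ ·)).Perm r := List.perm_insertionSort _ r
    have h2 := FF_insert hω L i (r.insertionSort (· ≤ ·))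
      (List.pairwise_insertionSort (· ≤ ·) r) (by rw [hperm.mem_iff]; exact hr.1) pre
    rw [hperm.countP_eq] at h2
    simp only [List.map_cons] at h2 ⊢
    rw [h1, h2]
    simp only [sgq, List.insertionSort_cons]
    ring

end

theorem sg : G_SG.{u, v} := by
  intro K _ I p ω hω m L ρ hρ hlen
  funext b
  unfold iact
  have hofn : (List.ofFn L) = (List.finRange m).map L := by
    rw [List.ofFn_eq_map]
  by_cases hb : b.length = m
  · rw [if_pos hb]
    set c : Fin m → Bool := fun i => b.getD i false with hc
    have hb' : b = (List.finRange m).map c := by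
      apply List.ext_getElem
      · simp [hb]
      · intro n h1 h2
        simp [hc, List.getD_eq_getElem?_getD, h1]
    rw [ft_eq ω _ _ (by simp), sel_map, sgnl_eq]
    rw [ft_eq ω _ _ (by simp [hb])]
    conv_rhs => rw [hofn, hb', sel_map]
    have hperm0 : ρ.Perm (List.finRange m) := by
      rw [List.perm_ext_iff_of_nodup hρ (List.nodup_finRange m)]
      intro a
      simp only [List.mem_finRange, iff_true]
      have hcard : ρ.toFinset = Finset.univ := by
        apply Finset.eq_univ_of_card
        rw [List.toFinset_card_of_nodup hρ, hlen, Fintype.card_fin]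
      have : a ∈ ρ.toFinset := by rw [hcard]; exact Finset.mem_univ a
      simpa using this
    have hperm : (ρ.filter c).Perm ((List.finRange m).filter c) := hperm0.filter c
    have hsorted : ((List.finRange m).filter c).Pairwise (· ≤ ·) :=
      ((List.pairwise_lt_finRange m).imp le_of_lt).filter c
    have heq : (ρ.filter c).insertionSort (· ≤ ·) = (List.finRange m).filter c := by
      refine List.Perm.eq_of_pairwise' (List.pairwise_insertionSort (· ≤ ·) _) hsorted ?_
      exact (List.perm_insertionSort _ _).trans hperm
    have h := FF_sort hω L (ρ.filter c) (hρ.filter c) []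
    simp only [List.nil_append] at h
    rw [h, heq, ← mul_assoc, sgq_mul_self, one_mul]
  · rw [if_neg hb]
    unfold ft
    rw [if_neg (by simpa using hb)]



end Pool.Agent.Helper64.IG.PkSG
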